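import Pool.Agent.Lib.MP_060d7c_co.FinalOdd
import Pool.Agent.Lib.MP_060d7c_co.FinalEven
import Pool.Agent.Lib.MP_060d7c_co.GridLow

set_option autoImplicit false

namespace Pool.Agent.Results.MP_060d7c_co.AllDimensions

/-- The integer grid `{1, ..., m}^d` in Euclidean `d`-space. -/
def grid (d m : ℕ) : Set (EuclideanSpace ℝ (Fin d)) :=
  {x | ∀ i, ∃ k : ℕ, 1 ≤ k ∧ k ≤ m ∧ x i = k}

/-- Distances over different unordered pairs of distinct points of `S` are different. -/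
def NoRepeatedDistance {d : ℕ} (S : Finset (EuclideanSpace ℝ (Fin d))) : Prop :=
  ∀ p ∈ S, ∀ q ∈ S, ∀ r ∈ S, ∀ s ∈ S, p ≠ q → r ≠ s → dist p q = dist r s →
    (p = r ∧ q = s) ∨ (p = s ∧ q = r)

theorem key (d : ℕ) (hd : 3 ≤ d) (e q : ℝ) (heq : e = q) (h : ∃ c : ℝ, 0 < c ∧ ∀ m : ℕ, 1 ≤ m →
    ∃ S : Finset (EuclideanSpace ℝ (Fin d)), Pool.Agent.Lib.MP_060d7c_co.Good d m S ∧
      c * (m : ℝ) ^ q ≤ (S.card : ℝ)) : ∃ c : ℝ, 0 < c ∧ ∀ m : ℕ, 1 ≤ m →
    ∃ S : Finset (EuclideanSpace ℝ (Fin d)), (∀ x ∈ S, x ∈ grid d m) ∧ NoRepeatedDistance S ∧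
      c * ((m ^ d : ℕ) : ℝ) ^ (e / d) ≤ (S.card : ℝ) := by
  subst heq
  obtain ⟨c, hc, h⟩ := h
  refine ⟨c, hc, fun m hm => ?_⟩
  obtain ⟨S, h1, h2⟩ := h m hm
  refine ⟨S, h1.1, h1.2, le_of_eq_of_le ?_ h2⟩
  have hd0 : (d : ℝ) ≠ 0 := by
    have : d ≠ 0 := by omega
    exact_mod_cast this
  congr 1
  push_cast
  rw [← Real.rpow_natCast, ← Real.rpow_mul (by positivity)]
  congr 1
  field_simp

/-- For every `d ≥ 3` there is `c > 0` such that every grid `{1, ..., m}^d`, with `n = m ^ d`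
points, contains a subset without repeated distances of size at least `c * n ^ (e / d)`, where
`e = 1 - 1 / max (d + 1) (2 * d - 3)`. -/
theorem result (d : ℕ) (hd : 3 ≤ d) : ∃ c : ℝ, 0 < c ∧ ∀ m : ℕ, 1 ≤ m →
    ∃ S : Finset (EuclideanSpace ℝ (Fin d)), (∀ x ∈ S, x ∈ grid d m) ∧ NoRepeatedDistance S ∧
      c * ((m ^ d : ℕ) : ℝ) ^ ((1 - 1 / max ((d : ℝ) + 1) (2 * d - 3)) / d) ≤ (S.card : ℝ) := by
  rcases Nat.lt_or_ge d 5 with h5 | h5
  · have hd5 : (d : ℝ) + 1 ≥ 2 * d - 3 := by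
      have : (d : ℝ) ≤ 4 := by
        have : d ≤ 4 := by omega
        exact_mod_cast this
      linarith
    rw [max_eq_left hd5]
    refine ⟨1 / 4 ^ (d + 1), by positivity, fun m hm => ?_⟩
    obtain ⟨S, h1, h2⟩ := Pool.Agent.Lib.MP_060d7c_co.GL.lower d (by omega) m hm
    refine ⟨S, h1.1, h1.2, le_of_eq_of_le ?_ h2⟩
    have hd0 : (d : ℝ) ≠ 0 := by
      have : d ≠ 0 := by omega
      exact_mod_cast this
    have hd1 : (d : ℝ) + 1 ≠ 0 := by positivity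
    have he : (1 - 1 / ((d : ℝ) + 1)) / d = 1 / ((d : ℝ) + 1) := by
      field_simp
      ring
    rw [he]
    ring
  · have hd5 : (d : ℝ) + 1 ≤ 2 * d - 3 := by
      have h6 : (5 : ℝ) ≤ d := by exact_mod_cast h5
      linarith
    rw [max_eq_right hd5]
    rcases Nat.even_or_odd' d with ⟨k, hk | hk⟩
    · obtain ⟨t, rfl⟩ : ∃ t, k = t + 2 := ⟨k - 2, by omega⟩
      have hd' : d = 2 * t + 4 := by omega
      subst hd'
      refine key _ hd _ _ ?_ (Pool.Agent.Lib.MP_060d7c_co.even_final t (by omega))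
      have h0 : ((4 : ℝ) * t + 5) ≠ 0 := by positivity
      have h1 : (2 * ((2 * t + 4 : ℕ) : ℝ) - 3) = 4 * t + 5 := by push_cast; ring
      rw [h1]
      push_cast
      field_simp
      ring
    · obtain ⟨t, rfl⟩ : ∃ t, k = t + 1 := ⟨k - 1, by omega⟩
      have hd' : d = 2 * t + 3 := by omega
      subst hd'
      refine key _ hd _ _ ?_ (Pool.Agent.Lib.MP_060d7c_co.odd_final t)
      have h0 : ((4 : ℝ) * t + 3) ≠ 0 := by positivity
      have h1 : (2 * ((2 * t + 3 : ℕ) : ℝ) - 3) = 4 * t + 3 := by push_cast; ring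
      rw [h1]
      push_cast
      field_simp
      ring

end Pool.Agent.Results.MP_060d7c_co.AllDimensions
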